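import Mathlib
import Pool.Agent.R104.PInterNT

set_option autoImplicit false

namespace Pool.Agent.Results.MP_890668_co.FewIndices

open Finset Polynomial Filter Topology
open Pool.Agent.R104.PInter
open scoped Nat

/-- the moduli used in the construction -/
noncomputable def u (n p j : ℕ) : ℕ :=
  (eval (((n ^ p + p)! * (j + 1) : ℕ) : ℤ) (cyclotomic p ℤ)).natAbs

theorem u_real (n p j : ℕ) : (u n p j : ℝ) =
    |eval (((n ^ p + p)! : ℝ) * ((j : ℝ) + 1)) (cyclotomic p ℝ)| := by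
  unfold u
  rw [Nat.cast_natAbs, Int.cast_abs]
  congr 1
  have h := Polynomial.eval_intCast_map (Int.castRingHom ℝ) (cyclotomic p ℤ)
    (((n ^ p + p)! * (j + 1) : ℕ) : ℤ)
  rw [map_cyclotomic] at h
  simp only [eq_intCast, Int.cast_id] at h
  rw [← h]
  push_cast
  rfl

theorem degree_pos' {p : ℕ} (hp : 1 ≤ p) : 0 < (cyclotomic p ℝ).degree := by
  rw [degree_cyclotomic]
  exact_mod_cast Nat.totient_pos.2 hp

theorem tendsto_u (n : ℕ) {p : ℕ} (hp : 1 ≤ p) : Tendsto (fun j => (u n p j : ℝ)) atTop atTop := by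
  have h1 := Polynomial.abs_tendsto_atTop (cyclotomic p ℝ) (degree_pos' hp)
  have hM : (0 : ℝ) < ((n ^ p + p)! : ℝ) := by exact_mod_cast Nat.factorial_pos _
  have h2 : Tendsto (fun j : ℕ => ((n ^ p + p)! : ℝ) * ((j : ℝ) + 1)) atTop atTop :=
    Tendsto.const_mul_atTop hM
      (tendsto_atTop_add_const_right _ _ tendsto_natCast_atTop_atTop)
  have h3 := h1.comp h2
  refine h3.congr (fun j => ?_)
  rw [u_real]
  rfl

theorem ratio_u (n : ℕ) (p : ℕ) :
    Tendsto (fun j => (u n p (j + 1) : ℝ) / u n p j) atTop (𝓝 1) := by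
  have hM : (0 : ℝ) < ((n ^ p + p)! : ℝ) := by exact_mod_cast Nat.factorial_pos _
  set M : ℝ := ((n ^ p + p)! : ℝ) with hMdef
  set P := cyclotomic p ℝ with hP
  have hc : ∀ c : ℝ, (C M * (X + C c) : ℝ[X]).natDegree = 1 ∧
      (C M * (X + C c) : ℝ[X]).leadingCoeff = M := by
    intro c
    rw [natDegree_C_mul hM.ne', natDegree_X_add_C, leadingCoeff_mul, leadingCoeff_C,
      leadingCoeff_X_add_C, mul_one]
    exact ⟨rfl, rfl⟩
  have hdeg : ∀ c : ℝ, (P.comp (C M * (X + C c))).natDegree = P.natDegree := by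
    intro c
    rw [natDegree_comp, (hc c).1, mul_one]
  have hlead : ∀ c : ℝ, (P.comp (C M * (X + C c))).leadingCoeff = M ^ P.natDegree := by
    intro c
    rw [leadingCoeff_comp (by rw [(hc c).1]; exact one_ne_zero), (hc c).2, hP,
      (cyclotomic.monic p ℝ).leadingCoeff, one_mul]
  have hne : ∀ c : ℝ, P.comp (C M * (X + C c)) ≠ 0 := by
    intro c h
    have := hlead c
    rw [h, leadingCoeff_zero] at this
    exact (pow_ne_zero _ hM.ne') this.symm
  have h1 := Polynomial.div_tendsto_atTop_leadingCoeff_div_of_degree_eq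
    (P.comp (C M * (X + C 2))) (P.comp (C M * (X + C 1)))
    (by rw [degree_eq_natDegree (hne 2), degree_eq_natDegree (hne 1), hdeg, hdeg])
  rw [hlead, hlead, div_self (pow_ne_zero _ hM.ne')] at h1
  have h2 := (h1.comp tendsto_natCast_atTop_atTop (α := ℕ)).abs
  rw [abs_one] at h2
  refine h2.congr (fun j => ?_)
  rw [u_real, u_real, ← abs_div]
  simp only [Function.comp, eval_comp, eval_mul, eval_C, eval_add, eval_X]
  push_cast
  rw [show (j : ℝ) + 1 + 1 = j + 2 by ring]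

theorem theta_le {n p j k : ℕ} (hn : 2 ≤ n) (hp : 1 ≤ p) (hk1 : 1 ≤ k) (hk : k ≤ u n p j) :
    p * theta (KG n k) p ≤ (u n p j - 1) * u n p j := by
  obtain ⟨t, ht, htp⟩ := good_mod (n := n) (p := p) (N := (n ^ p + p)! * (j + 1)) (K := u n p j)
    (k := k) (by omega) hp (Dvd.intro _ rfl) rfl (by omega) hk
  rw [← htp]
  exact Nat.mul_le_mul_left _ (Nat.sInf_le ht)

theorem exists_j (n : ℕ) {p : ℕ} (hp : 1 ≤ p) (k : ℕ) : ∃ j, k ≤ u n p j := by
  obtain ⟨j, hj⟩ := ((tendsto_u n hp).eventually_ge_atTop (k : ℝ)).exists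
  exact ⟨j, by exact_mod_cast hj⟩

theorem rep_theta {n p k : ℕ} (hn : 2 ≤ n) (hp : 1 ≤ p) (hk1 : 1 ≤ k) :
    Rep (KG n k) p (theta (KG n k) p) := by
  obtain ⟨j, hj⟩ := exists_j n hp k
  obtain ⟨t, ht, _⟩ := good_mod (n := n) (p := p) (N := (n ^ p + p)! * (j + 1)) (K := u n p j)
    (k := k) (by omega) hp (Dvd.intro _ rfl) rfl (by omega) hj
  exact Nat.sInf_mem (s := {t | Rep (KG n k) p t}) ⟨t, ht⟩

/-- For fixed `p ≥ 1` and `n ≥ 2`, the `p`-intersection number of `K(n × k)` is asymptotically equal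
to `k ^ 2 / p` as `k → ∞`. Moreover it is at least `k (k - 1) / p` for every `k ≥ 2`, with
equality for infinitely many `k`. -/
theorem result : ∀ p n : ℕ, 1 ≤ p → 2 ≤ n →
    Tendsto (fun k : ℕ => (theta (KG n k) p : ℝ) / ((k : ℝ) ^ 2 / p)) atTop (𝓝 1) ∧
    (∀ k : ℕ, 2 ≤ k → k * (k - 1) ≤ p * theta (KG n k) p) ∧
    (∃ᶠ k : ℕ in atTop, p * theta (KG n k) p = k * (k - 1)) := by
  intro p n hp hn
  have hlow : ∀ k : ℕ, 1 ≤ k → k * (k - 1) ≤ p * theta (KG n k) p := fun k hk =>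
    lower hn hp (rep_theta hn hp hk)
  have hp0 : (0 : ℝ) < p := by exact_mod_cast hp
  refine ⟨?_, fun k hk => hlow k (by omega), ?_⟩
  · rw [Metric.tendsto_atTop]
    intro ε hε
    obtain ⟨δ, hδ0, hδ1, hδε⟩ : ∃ δ : ℝ, 0 < δ ∧ δ ≤ 1 ∧ 3 * δ < ε := by
      refine ⟨min 1 (ε / 6), lt_min one_pos (by linarith), min_le_left _ _, ?_⟩
      have := min_le_right 1 (ε / 6)
      linarith
    have h1 : ∀ᶠ j in atTop, (u n p (j + 1) : ℝ) ≤ (1 + δ) * u n p j := by
      have h2 := (ratio_u n p).eventually_lt_const (u := 1 + δ) (by linarith)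
      have h3 := (tendsto_u n hp).eventually_gt_atTop (0 : ℝ)
      filter_upwards [h2, h3] with j h4 h5
      rw [div_lt_iff₀ h5] at h4
      exact h4.le
    obtain ⟨J0, hJ0⟩ := eventually_atTop.1 h1
    obtain ⟨K1, hK1⟩ := exists_nat_gt (1 / ε)
    refine ⟨max (((range (J0 + 1)).sup (u n p)) + 2) K1, fun k hk => ?_⟩
    have hkA : (range (J0 + 1)).sup (u n p) + 2 ≤ k := (le_max_left _ _).trans hk
    have hkB : K1 ≤ k := (le_max_right _ _).trans hk
    have hsmall : ∀ j, j ≤ J0 → u n p j < k := by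
      intro j hj
      have := Finset.le_sup (f := u n p) (mem_range.2 (by omega : j < J0 + 1))
      omega
    classical
    have hex := exists_j n hp k
    have hspec := Nat.find_spec hex
    have hgt : J0 < Nat.find hex := by
      by_contra hcon
      have := hsmall _ (not_lt.1 hcon)
      omega
    obtain ⟨j, hj⟩ : ∃ j, Nat.find hex = j + 1 := ⟨Nat.find hex - 1, by omega⟩
    have hjk : u n p j < k := by
      have := Nat.find_min hex (m := j) (by omega)
      omega
    rw [hj] at hspec hgt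
    have h2 := hJ0 j (by omega)
    have h3 := theta_le hn hp (by omega) hspec
    have h4 := hlow k (by omega)
    have hk0 : (0 : ℝ) < k := by
      have : 0 < k := by omega
      exact_mod_cast this
    have hkε : 1 / ε < k := hK1.trans_le (by exact_mod_cast hkB)
    have hjk' : (u n p j : ℝ) ≤ k := by exact_mod_cast hjk.le
    have h5 : (u n p (j + 1) : ℝ) ≤ (1 + δ) * k :=
      h2.trans (mul_le_mul_of_nonneg_left hjk' (by linarith))
    have h6 : (p : ℝ) * theta (KG n k) p ≤ (1 + 3 * δ) * k ^ 2 := by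
      have h7 : (p * theta (KG n k) p : ℕ) ≤ u n p (j + 1) * u n p (j + 1) :=
        h3.trans (Nat.mul_le_mul_right _ (Nat.sub_le _ _))
      have h8 : (p : ℝ) * theta (KG n k) p ≤ (u n p (j + 1) : ℝ) * u n p (j + 1) := by
        exact_mod_cast h7
      have h9 : (0 : ℝ) ≤ u n p (j + 1) := Nat.cast_nonneg _
      have h10 : (u n p (j + 1) : ℝ) * u n p (j + 1) ≤ ((1 + δ) * k) * ((1 + δ) * k) :=
        mul_self_le_mul_self h9 h5
      have h11 : (1 + δ) * (1 + δ) ≤ 1 + 3 * δ := by nlinarith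
      have h12 : ((1 + δ) * (1 + δ)) * (k : ℝ) ^ 2 ≤ (1 + 3 * δ) * (k : ℝ) ^ 2 :=
        mul_le_mul_of_nonneg_right h11 (by positivity)
      linarith
    have h7 : (k : ℝ) * (k - 1) ≤ (p : ℝ) * theta (KG n k) p := by
      have h8 : ((k * (k - 1) : ℕ) : ℝ) ≤ ((p * theta (KG n k) p : ℕ) : ℝ) := by exact_mod_cast h4
      rw [Nat.cast_mul, Nat.cast_sub (by omega)] at h8
      push_cast at h8
      exact h8
    have hk2 : (0 : ℝ) < (k : ℝ) ^ 2 := by positivity
    have heq : (theta (KG n k) p : ℝ) / ((k : ℝ) ^ 2 / p) = (p * theta (KG n k) p) / k ^ 2 := by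
      field_simp
    rw [Real.dist_eq, heq, abs_lt]
    constructor
    · have h8 : 1 < ε * k := by
        rw [div_lt_iff₀ hε] at hkε
        linarith
      have h9 : (1 - ε) * (k : ℝ) ^ 2 < p * theta (KG n k) p := by
        nlinarith
      rw [lt_sub_iff_add_lt, lt_div_iff₀ hk2]
      linarith
    · rw [sub_lt_iff_lt_add, div_lt_iff₀ hk2]
      nlinarith
  · rw [Filter.frequently_atTop]
    intro a
    obtain ⟨j, hj⟩ := exists_j n hp (a + 1)
    refine ⟨u n p j, by omega, le_antisymm ?_ (hlow _ (by omega))⟩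
    rw [mul_comm (u n p j)]
    exact theta_le hn hp (by omega) le_rfl

end Pool.Agent.Results.MP_890668_co.FewIndices
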